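import Pool.Agent.E8helper92.PQ.Mat
import Pool.Agent.E8helper92.PG.Near

/-!
# Structure of singular matrices with a kernel vector over `K`
-/

set_option autoImplicit false

namespace Pool.Agent.E8helper92.PQ

open Pool.Agent.W245.PB (IsIwasawaLog)
open Pool.Agent.W254.PA (Hyp)
open Module

variable {p : ℕ} [hp : Fact p.Prime]

/-- many columns of small degree, or a rational zero -/
theorem many_columns (K : IntermediateField ℚ_[p] (PadicAlgCl p)) (V : Submodule ℚ (PadicAlgCl p))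
    (hyp : Hyp V) (hV : ∀ σ : PadicAlgCl p ≃ₐ[K] PadicAlgCl p, ∀ v ∈ V, σ v ∈ V)
    {n : ℕ} (M : Matrix (Fin n) (Fin n) (PadicAlgCl p)) (hM : ∀ i j, M i j ∈ V)
    {u : Fin n → PadicAlgCl p} (hu : ∀ i, u i ∈ K) (hu0 : u ≠ 0)
    (hker : ∀ i, ∑ j, M i j * u j = 0) :
    (∃ w v : Fin n → ℚ, w ≠ 0 ∧ v ≠ 0 ∧
      ∑ i, ∑ j, (w i : PadicAlgCl p) * M i j * (v j : PadicAlgCl p) = 0) ∨
    ∃ (m : ℕ) (v : Fin m → Fin n → ℚ), LinearIndependent ℚ v ∧ n ≤ m * (m - 1) ∧
      ∃ E : IntermediateField K (PadicAlgCl p), FiniteDimensional K E ∧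
        finrank K E ≤ 3 ^ ((m * (m - 1)) ^ 2) ∧
        ∀ k i, ∑ j, M i j * (v k j : PadicAlgCl p) ∈ E := by
  classical
  by_cases hzero : ∃ w v : Fin n → ℚ, w ≠ 0 ∧ v ≠ 0 ∧
      ∑ i, ∑ j, (w i : PadicAlgCl p) * M i j * (v j : PadicAlgCl p) = 0
  · exact Or.inl hzero
  right
  obtain ⟨κ, a, ha, hspan, hli⟩ := exists_linearIndependent' ℚ u
  have hκ : Finite κ := Finite.of_injective a ha
  have : Fintype κ := Fintype.ofFinite κ
  have hP : ∀ j, ∃ c : κ → ℚ, ∑ k, c k • u (a k) = u j := by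
    intro j
    have h1 : u j ∈ Submodule.span ℚ (Set.range (u ∘ a)) := by
      rw [hspan]
      exact Submodule.subset_span ⟨j, rfl⟩
    exact (Submodule.mem_span_range_iff_exists_fun ℚ).1 h1
  choose P hP using hP
  have hne : Nonempty κ := by
    by_contra hcon
    rw [not_nonempty_iff] at hcon
    apply hu0
    funext j
    rw [← hP j]
    simp
  set m := Fintype.card κ with hm
  let e : Fin m ≃ κ := (Fintype.equivFin κ).symm
  set c : Fin m → PadicAlgCl p := fun k => u (a (e k)) with hc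
  have hcK : ∀ k, c k ∈ K := fun k => hu _
  have hcli : LinearIndependent ℚ c := hli.comp e e.injective
  obtain ⟨E, hE1, hE2, hE3⟩ := deg K V hyp hV hcK hcli
  set v : Fin m → Fin n → ℚ := fun k j => P j (e k) with hv
  set R : Fin n → Fin m → PadicAlgCl p := fun i k => ∑ j, M i j * (v k j : PadicAlgCl p) with hR
  have hRV : ∀ i k, R i k ∈ V := by
    intro i k
    refine V.sum_mem fun j _ => ?_
    rw [mul_comm, ← Rat.smul_def]
    exact V.smul_mem _ (hM i j)
  have hRc : ∀ i, ∑ k, c k * R i k = 0 := by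
    intro i
    rw [← hker i]
    simp only [hR, Finset.mul_sum]
    rw [Finset.sum_comm]
    refine Finset.sum_congr rfl fun j _ => ?_
    have h1 : u j = ∑ k : Fin m, (P j (e k) : PadicAlgCl p) * c k := by
      rw [← hP j, ← Equiv.sum_comp e]
      refine Finset.sum_congr rfl fun k _ => ?_
      rw [Rat.smul_def]
    conv_rhs => rw [h1, Finset.mul_sum]
    refine Finset.sum_congr rfl fun k _ => ?_
    ring
  have hδ : ∀ k k', v k (a (e k')) = if k = k' then 1 else 0 := by
    intro k k'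
    have h3 := hP (a (e k'))
    have h4 : ∑ l, (P (a (e k')) l - if l = e k' then 1 else 0) • (u ∘ a) l = 0 := by
      simp only [sub_smul, Finset.sum_sub_distrib, ite_smul, one_smul, zero_smul,
        Finset.sum_ite_eq', Finset.mem_univ, if_true]
      rw [sub_eq_zero]
      exact h3
    have h5 := Fintype.linearIndependent_iff.1 hli _ h4 (e k)
    have h6 : P (a (e k')) (e k) = if e k = e k' then 1 else 0 := sub_eq_zero.1 h5
    by_cases hkk : k = k'
    · rw [if_pos (congrArg e hkk)] at h6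
      rw [if_pos hkk]
      exact h6
    · rw [if_neg (fun h => hkk (e.injective h))] at h6
      rw [if_neg hkk]
      exact h6
  have hvli : LinearIndependent ℚ v := by
    rw [Fintype.linearIndependent_iff]
    intro g hg k
    have h1 := congrFun hg (a (e k))
    rw [Finset.sum_apply] at h1
    simp only [Pi.smul_apply, smul_eq_mul, hδ, mul_ite, mul_one, mul_zero, Finset.sum_ite_eq',
      Finset.mem_univ, if_true, Pi.zero_apply] at h1
    exact h1
  refine ⟨m, v, hvli, ?_, E, hE1, hE2, fun k i => hE3 (R i) (hRV i) (hRc i) k⟩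
  -- the rows are independent
  refine hyp m n c (fun k i => R i k) hcli (fun k i => hRV i k) hRc ?_
  rw [Fintype.linearIndependent_iff]
  intro g hg
  by_contra hcon
  push Not at hcon
  obtain ⟨i0, hi0⟩ := hcon
  apply hzero
  obtain ⟨k0⟩ := hne
  refine ⟨g, v (e.symm k0), fun h => hi0 (congrFun h i0), ?_, ?_⟩
  · intro h
    have h1 := congrFun h (a (e (e.symm k0)))
    rw [hδ, if_pos rfl] at h1
    exact one_ne_zero h1
  · have h1 := congrFun hg (e.symm k0)
    rw [Finset.sum_apply, Pi.zero_apply] at h1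
    rw [← h1]
    refine Finset.sum_congr rfl fun i _ => ?_
    rw [Pi.smul_apply, Rat.smul_def, hR, Finset.mul_sum]
    refine Finset.sum_congr rfl fun j _ => ?_
    ring

theorem logsQ_galois {L : PadicAlgCl p → PadicAlgCl p} (hL : IsIwasawaLog p L)
    (K : IntermediateField ℚ_[p] (PadicAlgCl p)) (σ : PadicAlgCl p ≃ₐ[K] PadicAlgCl p)
    {v : PadicAlgCl p} (hv : v ∈ LogsQ hL) : σ v ∈ LogsQ hL := by
  obtain ⟨α, h1, h2, rfl⟩ := hv
  refine ⟨σ α, (map_ne_zero σ).2 h1, PG.alg_map (σ : PadicAlgCl p →+* PadicAlgCl p) h2, ?_⟩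
  exact PG.log_galois hL (σ.restrictScalars ℚ_[p]) h1

/-- near one, the logarithm of an algebraic number has at least the degree of the number -/
theorem natDegree_log {L : PadicAlgCl p → PadicAlgCl p} (hL : IsIwasawaLog p L)
    (K : IntermediateField ℚ_[p] (PadicAlgCl p)) {β : PadicAlgCl p}
    (hβ0 : β ≠ 0) (hβ : ‖β - 1‖ * (p : ℝ) ^ 3 ≤ 1) :
    (minpoly K β).natDegree ≤ (minpoly K (L β)).natDegree := by
  classical
  have := PG.normalK K
  have : Algebra.IsAlgebraic K (PadicAlgCl p) := Algebra.IsAlgebraic.tower_top (K := ℚ_[p]) K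
  have hint : ∀ x : PadicAlgCl p, IsIntegral K x := fun x => Algebra.IsIntegral.isIntegral x
  have hcard : ∀ x : PadicAlgCl p, ((minpoly K x).rootSet (PadicAlgCl p)).toFinset.card =
      (minpoly K x).natDegree := by
    intro x
    rw [Set.toFinset_card]
    exact Polynomial.card_rootSet_eq_natDegree (minpoly.irreducible (hint x)).separable
      (IsAlgClosed.splits _)
  rw [← hcard β, ← hcard (L β)]
  have hconj : ∀ r ∈ ((minpoly K β).rootSet (PadicAlgCl p)).toFinset,
      ∃ σ : PadicAlgCl p ≃ₐ[K] PadicAlgCl p, σ β = r := by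
    intro r hr
    rw [Set.mem_toFinset] at hr
    have h1 : IsConjRoot K β r := (isConjRoot_iff_mem_minpoly_rootSet (hint β)).2 hr
    obtain ⟨σ, h2⟩ := isConjRoot_iff_exists_algEquiv.1 h1.symm
    exact ⟨σ, h2⟩
  have hnear : ∀ σ : PadicAlgCl p ≃ₐ[K] PadicAlgCl p, ‖σ β - 1‖ * (p : ℝ) ^ 3 ≤ 1 := by
    intro σ
    have h1 := PG.norm_galois (σ.restrictScalars ℚ_[p]) (β - 1)
    rw [map_sub, map_one] at h1
    have h2 : ‖σ β - 1‖ = ‖β - 1‖ := h1
    rw [h2]
    exact hβ
  refine Finset.card_le_card_of_injOn L ?_ ?_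
  · intro r hr
    obtain ⟨σ, rfl⟩ := hconj r hr
    have h1 : σ (L β) = L (σ β) := PG.log_galois hL (σ.restrictScalars ℚ_[p]) hβ0
    rw [Finset.mem_coe, Set.mem_toFinset, ← h1, Polynomial.mem_rootSet]
    refine ⟨minpoly.ne_zero (hint _), ?_⟩
    have h2 := Polynomial.aeval_algHom_apply (σ : PadicAlgCl p →ₐ[K] PadicAlgCl p) (L β)
      (minpoly K (L β))
    rw [minpoly.aeval, map_zero] at h2
    exact h2
  · intro r hr s hs hrs
    obtain ⟨σ, rfl⟩ := hconj r hr
    obtain ⟨τ, rfl⟩ := hconj s hs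
    exact PG.log_inj hL (hnear σ) (hnear τ) hrs

end Pool.Agent.E8helper92.PQ
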