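import Mathlib

/-!
# Finite groups of rational matrices: reduction modulo three
-/

set_option autoImplicit false

namespace Pool.Agent.E8helper92.PQ

open Module

section torsion

variable {Λ : Type*} [AddCommGroup Λ] {m : ℕ} (e : Basis (Fin m) ℤ Λ)
  (f : Module.End ℤ Λ)

theorem pow_three (hf3 : ∀ v, ∃ w, f v - v = (3 : ℤ) • w) (r : ℕ) (v : Λ) :
    ∃ w, ((f - 1) ^ r) v = ((3 : ℤ) ^ r) • w := by
  induction r with
  | zero => exact ⟨v, by simp⟩
  | succ r ih =>
    obtain ⟨w, hw⟩ := ih
    obtain ⟨w', hw'⟩ := hf3 w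
    refine ⟨w', ?_⟩
    rw [pow_succ', Module.End.mul_apply, hw, map_smul]
    have : (f - 1) w = (3 : ℤ) • w' := hw'
    rw [this, smul_smul, pow_succ]

include e in
theorem nilp (hf3 : ∀ v, ∃ w, f v - v = (3 : ℤ) • w)
    (hfin : ∀ v, (Set.range fun i : ℕ => (f ^ i) v).Finite) (v : Λ) :
    ∃ r : ℕ, ((f - 1) ^ r) v = 0 := by
  classical
  -- a bound for the coordinates
  obtain ⟨C, hC⟩ : ∃ C : ℕ, ∀ (i : ℕ) (j : Fin m), (e.repr ((f ^ i) v) j).natAbs ≤ C := by
    have h1 : (Set.range fun q : ℕ × Fin m => (e.repr ((f ^ q.1) v) q.2).natAbs).Finite := by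
      have h2 := (hfin v)
      have h3 : (⋃ j : Fin m, (fun x : Λ => (e.repr x j).natAbs) '' (Set.range fun i : ℕ => (f ^ i) v)).Finite :=
        Set.finite_iUnion fun j => h2.image _
      refine h3.subset ?_
      rintro _ ⟨⟨i, j⟩, rfl⟩
      rw [Set.mem_iUnion]
      exact ⟨j, _, ⟨i, rfl⟩, rfl⟩
    obtain ⟨C, hC⟩ := h1.bddAbove
    exact ⟨C, fun i j => hC ⟨(i, j), rfl⟩⟩
  have key : ∀ (r i : ℕ) (j : Fin m), (e.repr (((f - 1) ^ r) ((f ^ i) v)) j).natAbs ≤ 2 ^ r * C := by
    intro r
    induction r with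
    | zero =>
      intro i j
      simpa using hC i j
    | succ r ih =>
      intro i j
      have h1 : ((f - 1) ^ (r + 1)) ((f ^ i) v) =
          ((f - 1) ^ r) ((f ^ (i + 1)) v) - ((f - 1) ^ r) ((f ^ i) v) := by
        rw [pow_succ, Module.End.mul_apply, ← map_sub]
        congr 1
        rw [pow_succ', Module.End.mul_apply]
        rfl
      rw [h1, map_sub, Finsupp.sub_apply]
      refine (Int.natAbs_sub_le _ _).trans ?_
      have h2 := ih (i + 1) j
      have h3 := ih i j
      have e4 : 2 ^ (r + 1) * C = 2 ^ r * C + 2 ^ r * C := by ring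
      rw [e4]
      exact Nat.add_le_add h2 h3
  obtain ⟨r, hr⟩ : ∃ r : ℕ, 2 ^ r * C < 3 ^ r := by
    obtain ⟨r, hr⟩ := pow_unbounded_of_one_lt (C : ℝ) (show (1 : ℝ) < 3 / 2 by norm_num)
    refine ⟨r, ?_⟩
    have h1 : (2 : ℝ) ^ r * C < 3 ^ r := by
      rw [div_pow, lt_div_iff₀ (by positivity)] at hr
      linarith
    exact_mod_cast h1
  refine ⟨r, ?_⟩
  obtain ⟨w, hw⟩ := pow_three f hf3 r v
  apply e.repr.injective
  rw [map_zero]
  ext j
  have h1 := key r 0 j
  rw [pow_zero, Module.End.one_apply, hw, map_smul, Finsupp.smul_apply, smul_eq_mul,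
    Int.natAbs_mul] at h1
  rw [hw, map_smul, Finsupp.smul_apply, smul_eq_mul, Finsupp.zero_apply]
  have h2 : ((3 : ℤ) ^ r).natAbs = 3 ^ r := by
    rw [Int.natAbs_pow]; rfl
  rw [h2] at h1
  have h3 : (e.repr w j).natAbs = 0 := by
    by_contra hne
    have : 3 ^ r * 1 ≤ 3 ^ r * (e.repr w j).natAbs := Nat.mul_le_mul_left _ (Nat.one_le_iff_ne_zero.2 hne)
    omega
  rw [Int.natAbs_eq_zero.1 h3, mul_zero]

include e in
theorem torsion (hf3 : ∀ v, ∃ w, f v - v = (3 : ℤ) • w)
    (hfin : ∀ v, (Set.range fun i : ℕ => (f ^ i) v).Finite) (v : Λ) : f v = v := by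
  classical
  have htf : ∀ (n : ℤ) (x : Λ), n • x = 0 → n = 0 ∨ x = 0 := by
    intro n x h
    by_cases hn : n = 0
    · exact Or.inl hn
    · right
      apply e.repr.injective
      rw [map_zero]
      ext j
      have h1 := congrArg (fun y => e.repr y j) h
      simp only [map_smul, Finsupp.smul_apply, smul_eq_mul, map_zero, Finsupp.zero_apply] at h1 ⊢
      exact (mul_eq_zero.1 h1).resolve_left hn
  by_contra hne
  have hD : (f - 1) v ≠ 0 := by
    intro h
    apply hne
    have : f v - v = 0 := h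
    exact sub_eq_zero.1 this
  have hex := nilp e f hf3 hfin v
  set r := Nat.find hex with hr
  have hr0 : ((f - 1) ^ r) v = 0 := Nat.find_spec hex
  have hr2 : 2 ≤ r := by
    by_contra hlt
    have h01 : r = 0 ∨ r = 1 := by omega
    rcases h01 with h | h
    · rw [h, pow_zero, Module.End.one_apply] at hr0
      apply hD
      rw [hr0, map_zero]
    · rw [h, pow_one] at hr0
      exact hD hr0
  have hr1 : ((f - 1) ^ (r - 1)) v ≠ 0 := Nat.find_min hex (by omega)
  set w := ((f - 1) ^ (r - 2)) v with hw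
  have e1 : (f - 1) w = ((f - 1) ^ (r - 1)) v := by
    rw [hw, ← Module.End.mul_apply, ← pow_succ']
    congr 2
    omega
  have e2 : (f - 1) ((f - 1) w) = 0 := by
    rw [e1, ← Module.End.mul_apply, ← pow_succ']
    have : r - 1 + 1 = r := by omega
    rw [this]
    exact hr0
  set x := (f - 1) w with hx
  have hx0 : x ≠ 0 := by rw [e1]; exact hr1
  have hfw : f w = w + x := by
    rw [hx]
    change f w = w + (f w - w)
    abel
  have hfx : f x = x := by
    have : f x - x = 0 := e2
    exact sub_eq_zero.1 this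
  have hpow : ∀ i : ℕ, (f ^ i) w = w + (i : ℤ) • x := by
    intro i
    induction i with
    | zero => simp
    | succ i ih =>
      rw [pow_succ', Module.End.mul_apply, ih, map_add, map_smul, hfw, hfx]
      push_cast
      rw [add_smul, one_smul]
      abel
  have hinj : Function.Injective (fun i : ℕ => (f ^ i) w) := by
    intro i j hij
    simp only [hpow] at hij
    have h1 : ((i : ℤ) - j) • x = 0 := by
      rw [sub_smul]
      have := add_left_cancel hij
      rw [this, sub_self]
    rcases htf _ _ h1 with h2 | h2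
    · have : (i : ℤ) = j := by linarith
      exact_mod_cast this
    · exact absurd h2 hx0
  exact Set.infinite_range_of_injective hinj (hfin w)

end torsion

section group

variable {G W : Type*} [Group G] [AddCommGroup W] [Module ℚ W] [FiniteDimensional ℚ W]
  (φ : G →* Module.End ℚ W)

/-- A group of automorphisms of a rational vector space of dimension `N` with finite orbits has at
most `3 ^ (N ^ 2)` elements: there is an injection from it into a set with so many elements. -/
theorem card_bound (hfin : ∀ w : W, (Set.range fun g => φ g w).Finite) :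
    ∃ (m : ℕ) (A : G → (Fin m → Fin m → ZMod 3)), m ≤ finrank ℚ W ∧
      ∀ g h, A g = A h → φ g = φ h := by
  classical
  set b := Module.finBasis ℚ W with hb
  set N := finrank ℚ W with hN
  set S : Set W := ⋃ i : Fin N, Set.range fun g => φ g (b i) with hS
  have hSfin : S.Finite := Set.finite_iUnion fun i => hfin (b i)
  set Λ : Submodule ℤ W := Submodule.span ℤ S with hΛ
  have hΛfin : Module.Finite ℤ Λ := Module.Finite.span_of_finite ℤ hSfin
  have htfW : IsAddTorsionFree W := .of_module_rat _
  have htf : Module.IsTorsionFree ℤ Λ := inferInstance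
  have hfree : Module.Free ℤ Λ := inferInstance
  set m := finrank ℤ Λ with hm
  let e : Basis (Fin m) ℤ Λ := Module.finBasis ℤ Λ
  have hmN : m ≤ N := by
    have h1 : LinearIndependent ℤ (fun i => ((e i : Λ) : W)) :=
      e.linearIndependent.map' Λ.subtype (LinearMap.ker_eq_bot.2 Subtype.val_injective)
    have h2 : LinearIndependent ℚ (fun i => ((e i : Λ) : W)) :=
      (LinearIndependent.iff_fractionRing ℤ ℚ).1 h1
    have h3 := h2.fintype_card_le_finrank
    rwa [Fintype.card_fin] at h3
  -- the action on the lattice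
  have hact : ∀ (g : G) (v : W), v ∈ Λ → φ g v ∈ Λ := by
    intro g v hv
    rw [hΛ] at hv
    induction hv using Submodule.span_induction with
    | mem x hx =>
      refine Submodule.subset_span ?_
      rw [hS, Set.mem_iUnion] at hx ⊢
      obtain ⟨i, h, rfl⟩ := hx
      refine ⟨i, g * h, ?_⟩
      simp only [map_mul, Module.End.mul_apply]
    | zero => rw [map_zero]; exact Λ.zero_mem
    | add x y _ _ h1 h2 => rw [map_add]; exact Λ.add_mem h1 h2
    | smul a x _ h =>
      rw [map_zsmul]
      exact Λ.smul_mem a h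
  let T : G → Module.End ℤ Λ := fun g =>
    { toFun := fun v => ⟨φ g v, hact g v v.2⟩
      map_add' := by intro x y; exact Subtype.ext (map_add (φ g) _ _)
      map_smul' := by intro a x; exact Subtype.ext (map_zsmul (φ g) a _) }
  have hT : ∀ g (v : Λ), ((T g v : Λ) : W) = φ g v := fun g v => rfl
  have hTmul : ∀ g h (v : Λ), T (g * h) v = T g (T h v) := by
    intro g h v
    refine Subtype.ext ?_
    rw [hT, hT, hT, map_mul, Module.End.mul_apply]
  have hTpow : ∀ g (i : ℕ) (v : Λ), ((((T g) ^ i) v : Λ) : W) = φ (g ^ i) v := by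
    intro g i
    induction i with
    | zero => intro v; simp
    | succ i ih =>
      intro v
      rw [pow_succ, Module.End.mul_apply, ih, hT, pow_succ, map_mul, Module.End.mul_apply]
  refine ⟨m, fun g i j => ((e.repr (T g (e j)) i : ℤ) : ZMod 3), hmN, ?_⟩
  intro g h hgh
  -- the difference is divisible by three
  have h3 : ∀ v : Λ, ∃ w : Λ, T h v - T g v = (3 : ℤ) • w := by
    intro v
    have h4 : ∀ j, ∃ w : Λ, T h (e j) - T g (e j) = (3 : ℤ) • w := by
      intro j
      have h5 : ∀ i, ∃ c : ℤ, e.repr (T h (e j)) i - e.repr (T g (e j)) i = 3 * c := by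
        intro i
        have h6 : ((e.repr (T g (e j)) i : ℤ) : ZMod 3) = ((e.repr (T h (e j)) i : ℤ) : ZMod 3) :=
          congrFun (congrFun hgh i) j
        have h7 : ((e.repr (T h (e j)) i - e.repr (T g (e j)) i : ℤ) : ZMod 3) = 0 := by
          push_cast
          rw [h6, sub_self]
        exact (ZMod.intCast_zmod_eq_zero_iff_dvd _ 3).1 h7
      choose c hc using h5
      refine ⟨∑ i, c i • e i, ?_⟩
      apply e.repr.injective
      ext i
      rw [map_sub, Finsupp.sub_apply, hc i, map_smul, Finsupp.smul_apply, smul_eq_mul,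
        Basis.repr_sum_self]
    choose w hw using h4
    refine ⟨∑ j, e.repr v j • w j, ?_⟩
    have h5 : T h v - T g v = ∑ j, e.repr v j • (T h (e j) - T g (e j)) := by
      conv_lhs => rw [← e.sum_repr v]
      rw [map_sum, map_sum, ← Finset.sum_sub_distrib]
      refine Finset.sum_congr rfl fun j _ => ?_
      rw [map_smul, map_smul, smul_sub]
    rw [h5, Finset.smul_sum]
    refine Finset.sum_congr rfl fun j _ => ?_
    rw [hw, smul_comm]
  set k := g⁻¹ * h with hk
  have h4 : ∀ v : Λ, ∃ w : Λ, T k v - v = (3 : ℤ) • w := by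
    intro v
    obtain ⟨w, hw⟩ := h3 v
    refine ⟨T g⁻¹ w, ?_⟩
    rw [← map_smul, ← hw, map_sub, ← hTmul, ← hTmul, inv_mul_cancel]
    congr 1
    refine Subtype.ext ?_
    rw [hT, map_one]
    rfl
  have h5 : ∀ v : Λ, (Set.range fun i : ℕ => ((T k) ^ i) v).Finite := by
    intro v
    have h6 := hfin (v : W)
    refine Set.Finite.of_finite_image (f := Subtype.val) (h6.subset ?_) Subtype.val_injective.injOn
    rintro _ ⟨_, ⟨i, rfl⟩, rfl⟩
    exact ⟨k ^ i, (hTpow k i v).symm⟩
  have h6 := torsion e (T k) h4 h5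
  -- conclusion
  have h7 : ∀ i, φ k (b i) = b i := by
    intro i
    have hbi : b i ∈ Λ := by
      refine Submodule.subset_span ?_
      rw [hS, Set.mem_iUnion]
      exact ⟨i, 1, by simp⟩
    have h8 := congrArg (fun z : Λ => (z : W)) (h6 ⟨b i, hbi⟩)
    exact h8
  have h8 : φ k = 1 := b.ext fun i => by rw [h7 i]; rfl
  have h9 : φ h = φ g * φ k := by rw [← map_mul, hk, mul_inv_cancel_left]
  rw [h9, h8, mul_one]

end group

end Pool.Agent.E8helper92.PQ
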