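import Pool.Agent.E8helper92.PQ.Hyp
import Pool.Agent.E8helper92.PQ.Mink
import Pool.Agent.E8helper92.PG.Gal

/-!
# Degrees of logarithms in a linear relation over `K`
-/

set_option autoImplicit false

namespace Pool.Agent.E8helper92.PQ

open Pool.Agent.W245.PB (IsIwasawaLog)
open Pool.Agent.W254.PA (Hyp)
open Module

variable {p : ℕ} [hp : Fact p.Prime] {n : ℕ}

/-- the vectors in `V ^ n` orthogonal to `u` -/
def WW (V : Submodule ℚ (PadicAlgCl p)) (u : Fin n → PadicAlgCl p) :
    Submodule ℚ (Fin n → PadicAlgCl p) where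
  carrier := {ρ | (∀ i, ρ i ∈ V) ∧ ∑ i, u i * ρ i = 0}
  zero_mem' := ⟨fun i => V.zero_mem, by simp⟩
  add_mem' := by
    rintro x y ⟨h1, h2⟩ ⟨h3, h4⟩
    refine ⟨fun i => V.add_mem (h1 i) (h3 i), ?_⟩
    simp only [Pi.add_apply, mul_add, Finset.sum_add_distrib]
    rw [h2, h4, add_zero]
  smul_mem' := by
    rintro c x ⟨h1, h2⟩
    refine ⟨fun i => V.smul_mem c (h1 i), ?_⟩
    simp only [Pi.smul_apply, mul_smul_comm]
    rw [← Finset.smul_sum, h2, smul_zero]

theorem mem_WW {V : Submodule ℚ (PadicAlgCl p)} {u ρ : Fin n → PadicAlgCl p} :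
    ρ ∈ WW V u ↔ (∀ i, ρ i ∈ V) ∧ ∑ i, u i * ρ i = 0 := Iff.rfl

theorem finrank_WW {V : Submodule ℚ (PadicAlgCl p)} (hV : Hyp V) {u : Fin n → PadicAlgCl p}
    (hu : LinearIndependent ℚ u) :
    FiniteDimensional ℚ (WW V u) ∧ finrank ℚ (WW V u) ≤ n * (n - 1) := by
  have h1 : Module.rank ℚ (WW V u) ≤ (n * (n - 1) : ℕ) := by
    refine rank_le ?_
    intro s hs
    let e : Fin s.card ≃ s := s.equivFin.symm
    refine hV n s.card u (fun i j => ((e j : WW V u) : Fin n → PadicAlgCl p) i) hu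
      (fun i j => (e j : WW V u).2.1 i) (fun j => (e j : WW V u).2.2) ?_
    have h2 : LinearIndependent ℚ (fun j : Fin s.card => ((e j : s) : WW V u)) :=
      hs.comp e e.injective
    exact h2.map' (WW V u).subtype (LinearMap.ker_eq_bot.2 Subtype.val_injective)
  refine ⟨?_, Module.finrank_le_of_rank_le h1⟩
  exact Module.rank_lt_aleph0_iff.1 (lt_of_le_of_lt h1 Cardinal.natCast_lt_aleph0)

/-- the action of the Galois group -/
noncomputable def act (K : IntermediateField ℚ_[p] (PadicAlgCl p)) (V : Submodule ℚ (PadicAlgCl p))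
    (hV : ∀ σ : PadicAlgCl p ≃ₐ[K] PadicAlgCl p, ∀ v ∈ V, σ v ∈ V) {u : Fin n → PadicAlgCl p}
    (hu : ∀ i, u i ∈ K) : (PadicAlgCl p ≃ₐ[K] PadicAlgCl p) →* Module.End ℚ (WW V u) where
  toFun σ :=
    { toFun := fun ρ => ⟨fun i => σ ((ρ : Fin n → PadicAlgCl p) i), fun i => hV σ _ (ρ.2.1 i), by
        have h1 := congrArg σ ρ.2.2
        rw [map_sum, map_zero] at h1
        rw [← h1]
        refine Finset.sum_congr rfl fun i _ => ?_
        rw [map_mul]
        congr 1
        exact (σ.commutes ⟨u i, hu i⟩).symm⟩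
      map_add' := by
        intro x y
        refine Subtype.ext (funext fun i => ?_)
        exact map_add σ _ _
      map_smul' := by
        intro c x
        refine Subtype.ext (funext fun i => ?_)
        exact map_rat_smul σ c _ }
  map_one' := by
    refine LinearMap.ext fun x => Subtype.ext (funext fun i => ?_)
    rfl
  map_mul' := by
    intro σ τ
    refine LinearMap.ext fun x => Subtype.ext (funext fun i => ?_)
    rfl

theorem act_apply (K : IntermediateField ℚ_[p] (PadicAlgCl p)) (V : Submodule ℚ (PadicAlgCl p))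
    (hV : ∀ σ : PadicAlgCl p ≃ₐ[K] PadicAlgCl p, ∀ v ∈ V, σ v ∈ V) {u : Fin n → PadicAlgCl p}
    (hu : ∀ i, u i ∈ K) (σ : PadicAlgCl p ≃ₐ[K] PadicAlgCl p) (ρ : WW V u) (i : Fin n) :
    ((act K V hV hu σ ρ : WW V u) : Fin n → PadicAlgCl p) i = σ ((ρ : Fin n → PadicAlgCl p) i) :=
  rfl

theorem finite_conj (K : IntermediateField ℚ_[p] (PadicAlgCl p)) (z : PadicAlgCl p) :
    (Set.range fun σ : PadicAlgCl p ≃ₐ[K] PadicAlgCl p => σ z).Finite := by
  have : Algebra.IsAlgebraic K (PadicAlgCl p) := Algebra.IsAlgebraic.tower_top (K := ℚ_[p]) K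
  refine ((minpoly K z).rootSet_finite (PadicAlgCl p)).subset ?_
  rintro _ ⟨σ, rfl⟩
  rw [Polynomial.mem_rootSet]
  refine ⟨minpoly.ne_zero (Algebra.IsIntegral.isIntegral z), ?_⟩
  have h1 := Polynomial.aeval_algHom_apply (σ : PadicAlgCl p →ₐ[K] PadicAlgCl p) z (minpoly K z)
  rw [minpoly.aeval, map_zero] at h1
  exact h1

/-- **Degrees.** -/
theorem deg (K : IntermediateField ℚ_[p] (PadicAlgCl p)) (V : Submodule ℚ (PadicAlgCl p))
    (hyp : Hyp V) (hV : ∀ σ : PadicAlgCl p ≃ₐ[K] PadicAlgCl p, ∀ v ∈ V, σ v ∈ V)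
    {u : Fin n → PadicAlgCl p} (hu : ∀ i, u i ∈ K) (hli : LinearIndependent ℚ u) :
    ∃ E : IntermediateField K (PadicAlgCl p), FiniteDimensional K E ∧
      finrank K E ≤ 3 ^ ((n * (n - 1)) ^ 2) ∧
      ∀ ρ : Fin n → PadicAlgCl p, (∀ i, ρ i ∈ V) → ∑ i, u i * ρ i = 0 → ∀ i, ρ i ∈ E := by
  classical
  have := PG.normalK K
  have : Algebra.IsAlgebraic K (PadicAlgCl p) := Algebra.IsAlgebraic.tower_top (K := ℚ_[p]) K
  obtain ⟨hfd, hfr⟩ := finrank_WW hyp hli
  set φ := act K V hV hu with hφ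
  have hfin : ∀ ρ : WW V u, (Set.range fun σ => φ σ ρ).Finite := by
    intro ρ
    refine Set.Finite.of_finite_image (f := Subtype.val) ?_ Subtype.val_injective.injOn
    refine (Set.Finite.pi' (fun i => finite_conj K ((ρ : Fin n → PadicAlgCl p) i))).subset ?_
    rintro _ ⟨_, ⟨σ, rfl⟩, rfl⟩ i
    exact ⟨σ, rfl⟩
  obtain ⟨m, A, hm, hA⟩ := card_bound φ hfin
  set b := Module.finBasis ℚ (WW V u) with hb
  set T : Set (PadicAlgCl p) := Set.range fun q : Fin (finrank ℚ (WW V u)) × Fin n =>
    ((b q.1 : WW V u) : Fin n → PadicAlgCl p) q.2 with hT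
  have hTfin : T.Finite := Set.finite_range _
  set E := IntermediateField.adjoin K T with hE
  have hEfd : FiniteDimensional K E := by
    have : Finite T := hTfin
    exact IntermediateField.finiteDimensional_adjoin fun x _ => Algebra.IsIntegral.isIntegral x
  refine ⟨E, hEfd, ?_, ?_⟩
  · obtain ⟨γ, hγ⟩ := Field.exists_primitive_element K E
    rw [← (Field.primitive_element_iff_minpoly_natDegree_eq K γ).1 hγ]
    set z : PadicAlgCl p := (γ : PadicAlgCl p) with hz
    have hmin : minpoly K γ = minpoly K z :=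
      (minpoly.algebraMap_eq (A := K) (B := E) (B' := PadicAlgCl p)
        (algebraMap E (PadicAlgCl p)).injective γ).symm
    rw [hmin]
    have hint : IsIntegral K z := Algebra.IsIntegral.isIntegral z
    set R : Finset (PadicAlgCl p) := ((minpoly K z).rootSet (PadicAlgCl p)).toFinset with hR
    have hcard : R.card = (minpoly K z).natDegree := by
      rw [hR, Set.toFinset_card]
      exact Polynomial.card_rootSet_eq_natDegree (minpoly.irreducible hint).separable
        (IsAlgClosed.splits _)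
    rw [← hcard]
    have hσ : ∀ r : R, ∃ σ : PadicAlgCl p ≃ₐ[K] PadicAlgCl p, σ z = r := by
      intro r
      have hr : (r : PadicAlgCl p) ∈ (minpoly K z).rootSet (PadicAlgCl p) :=
        Set.mem_toFinset.1 r.2
      have h1 : IsConjRoot K z (r : PadicAlgCl p) := (isConjRoot_iff_mem_minpoly_rootSet hint).2 hr
      obtain ⟨σ, h2⟩ := isConjRoot_iff_exists_algEquiv.1 h1.symm
      exact ⟨σ, h2⟩
    choose σ hσ using hσ
    have hinj : Function.Injective fun r : R => A (σ r) := by
      intro r s hrs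
      have h1 := hA _ _ hrs
      -- agree on `T`
      have h2 : ∀ x ∈ T, σ r x = σ s x := by
        rintro _ ⟨⟨j, i⟩, rfl⟩
        have h3 := congrArg (fun f : Module.End ℚ (WW V u) =>
          ((f (b j) : WW V u) : Fin n → PadicAlgCl p) i) h1
        exact h3
      have h3 : ∀ x ∈ E, σ r x = σ s x := by
        intro x hx
        rw [hE] at hx
        induction hx using IntermediateField.adjoin_induction with
        | mem x hx => exact h2 x hx
        | algebraMap x => rw [AlgEquiv.commutes, AlgEquiv.commutes]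
        | add x y _ _ h4 h5 => rw [map_add, map_add, h4, h5]
        | inv x _ h4 => rw [map_inv₀, map_inv₀, h4]
        | mul x y _ _ h4 h5 => rw [map_mul, map_mul, h4, h5]
      have h4 := h3 z γ.2
      rw [hσ, hσ] at h4
      exact Subtype.ext h4
    have h1 := Fintype.card_le_of_injective _ hinj
    rw [Fintype.card_coe] at h1
    refine h1.trans ?_
    rw [Fintype.card_fun, Fintype.card_fun, ZMod.card, Fintype.card_fin, ← pow_mul]
    refine Nat.pow_le_pow_right (by norm_num) ?_
    rw [sq]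
    exact Nat.mul_le_mul (hm.trans hfr) (hm.trans hfr)
  · intro ρ h1 h2 i
    have h3 := b.sum_repr ⟨ρ, h1, h2⟩
    have h4 := congrArg (fun x : WW V u => (x : Fin n → PadicAlgCl p) i) h3
    simp only [Submodule.coe_sum, Finset.sum_apply, Submodule.coe_smul, Pi.smul_apply] at h4
    rw [← h4]
    refine sum_mem fun j _ => ?_
    rw [Rat.smul_def]
    refine mul_mem ?_ (IntermediateField.subset_adjoin K T ⟨(j, i), rfl⟩)
    exact SubfieldClass.ratCast_mem E _

end Pool.Agent.E8helper92.PQ
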