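import Pool.Agent.W254.PA.LogP

/-!
# The hyperplane theorem for the rational space of `p`-adic logarithms
-/

set_option autoImplicit false

namespace Pool.Agent.E8helper92.PQ

open Pool.Agent.W245.PB (IsIwasawaLog)
open Pool.Agent.W254.PA

variable {p : ℕ} [hp : Fact p.Prime]

/-- the rational space of the `p`-adic logarithms of algebraic numbers -/
def LogsQ {L : PadicAlgCl p → PadicAlgCl p} (hL : IsIwasawaLog p L) :
    Submodule ℚ (PadicAlgCl p) where
  carrier := {z | ∃ α : PadicAlgCl p, α ≠ 0 ∧ IsAlgebraic ℚ α ∧ z = L α}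
  zero_mem' := ⟨1, one_ne_zero, isAlgebraic_one, hL.one.symm⟩
  add_mem' := by
    rintro x y ⟨α, h1, h2, rfl⟩ ⟨β, h3, h4, rfl⟩
    exact ⟨α * β, mul_ne_zero h1 h3, h2.mul h4, (hL.mul _ _ h1 h3).symm⟩
  smul_mem' := by
    rintro q x ⟨α, h1, h2, rfl⟩
    obtain ⟨β, hβ⟩ := IsAlgClosed.exists_pow_nat_eq α q.pos
    have hβ0 : β ≠ 0 := by
      rintro rfl
      rw [zero_pow q.pos.ne'] at hβ
      exact h1 hβ.symm
    have hβalg : IsAlgebraic ℚ β := by
      rw [← hβ] at h2
      exact IsAlgebraic.of_pow q.pos h2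
    refine ⟨β ^ q.num, zpow_ne_zero _ hβ0, ?_, ?_⟩
    · rcases Int.eq_nat_or_neg q.num with ⟨n, h | h⟩
      · rw [h, zpow_natCast]; exact hβalg.pow n
      · rw [h, zpow_neg, zpow_natCast]; exact (hβalg.pow n).inv
    · rw [hL.zpow hβ0, ← hβ, hL.pow hβ0, Rat.smul_def]
      have hq : (q : PadicAlgCl p) * (q.den : PadicAlgCl p) = (q.num : PadicAlgCl p) := by
        have := Rat.mul_den_eq_num q
        exact_mod_cast congrArg (fun z : ℚ => (z : PadicAlgCl p)) this
      rw [← mul_assoc, hq]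

theorem mem_LogsQ {L : PadicAlgCl p → PadicAlgCl p} (hL : IsIwasawaLog p L) {z : PadicAlgCl p} :
    z ∈ LogsQ hL ↔ ∃ α : PadicAlgCl p, α ≠ 0 ∧ IsAlgebraic ℚ α ∧ z = L α := Iff.rfl

theorem hypQ {L : PadicAlgCl p → PadicAlgCl p} (hL : IsIwasawaLog p L) : Hyp (LogsQ hL) := by
  obtain ⟨θ⟩ := exists_theta p
  intro d l x a hx ha hxa hcol
  set Θ : PadicAlgCl p →+* ℂ := (θ : ℂ_[p] →+* ℂ).comp (ic p) with hΘ
  have hmem : ∀ i j, Θ (a i j) ∈ LKP (⊥ : IntermediateField ℚ ℂ) (Lθ p θ) := by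
    intro i j
    refine Submodule.subset_span (Or.inr ?_)
    obtain ⟨α, hα, halg, h⟩ := ha i j
    rw [h, SetLike.mem_coe, mem_Lθ]
    have : θ.symm (Θ (L α)) = ic p (L α) := θ.symm_apply_apply _
    rw [this]
    exact ic_log_mem hL hα halg
  have hrat : ∀ c : (⊥ : IntermediateField ℚ ℂ), ∃ q : ℚ, (c : ℂ) = (q : ℂ) := by
    intro c
    obtain ⟨q, hq⟩ := IntermediateField.mem_bot.1 c.2
    exact ⟨q, by rw [← hq]; simp⟩
  choose π hπ using hrat
  refine hypP (⊥ : IntermediateField ℚ ℂ) (Lθ p θ) (obsProp_padic p Pool.Agent.H301R2.SSE.zeg θ)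
    d l (fun i => Θ (x i)) (fun i j => Θ (a i j)) ?_ hmem ?_ ?_
  · intro c hc i
    have h1 := Fintype.linearIndependent_iff.mp hx (fun i => π (c i)) (by
      apply Θ.injective
      rw [map_zero, ← hc, map_sum]
      apply Finset.sum_congr rfl
      intro i _
      rw [Rat.smul_def, map_mul, map_ratCast, hπ]) i
    refine Subtype.ext ?_
    rw [hπ, h1]
    simp
  · intro j
    rw [← map_zero Θ, ← hxa j, map_sum]
    apply Finset.sum_congr rfl
    intro i _
    rw [map_mul]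
  · intro c hc j
    have h1 := Fintype.linearIndependent_iff.mp hcol (fun j => π (c j)) (by
      funext i
      rw [Finset.sum_apply, Pi.zero_apply]
      apply Θ.injective
      rw [map_zero, ← hc i, map_sum]
      apply Finset.sum_congr rfl
      intro j _
      rw [Pi.smul_apply, Rat.smul_def, map_mul, map_ratCast, hπ]) j
    refine Subtype.ext ?_
    rw [hπ, h1]
    simp

end Pool.Agent.E8helper92.PQ
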