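import Pool.Agent.E8helper92.PQ.Deg

/-!
# Matrices with a kernel vector over `K`
-/

set_option autoImplicit false

namespace Pool.Agent.E8helper92.PQ

open Pool.Agent.W245.PB (IsIwasawaLog)
open Pool.Agent.W254.PA (Hyp)
open Module

variable {p : ℕ} [hp : Fact p.Prime]

/-- a kernel vector over `K` yields a rational combination of the columns of small degree -/
theorem small_column (K : IntermediateField ℚ_[p] (PadicAlgCl p)) (V : Submodule ℚ (PadicAlgCl p))
    (hyp : Hyp V) (hV : ∀ σ : PadicAlgCl p ≃ₐ[K] PadicAlgCl p, ∀ v ∈ V, σ v ∈ V)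
    {ι : Type*} {n : ℕ} (M : ι → Fin n → PadicAlgCl p) (hM : ∀ i j, M i j ∈ V)
    {u : Fin n → PadicAlgCl p} (hu : ∀ i, u i ∈ K) (hu0 : u ≠ 0)
    (hker : ∀ i, ∑ j, M i j * u j = 0) :
    ∃ v : Fin n → ℚ, v ≠ 0 ∧ ∃ E : IntermediateField K (PadicAlgCl p), FiniteDimensional K E ∧
      finrank K E ≤ 3 ^ ((n * (n - 1)) ^ 2) ∧ ∀ i, ∑ j, M i j * (v j : PadicAlgCl p) ∈ E := by
  classical
  obtain ⟨κ, a, ha, hspan, hli⟩ := exists_linearIndependent' ℚ u
  have hκ : Finite κ := Finite.of_injective a ha
  have : Fintype κ := Fintype.ofFinite κ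
  -- coefficients
  have hP : ∀ j, ∃ c : κ → ℚ, ∑ k, c k • u (a k) = u j := by
    intro j
    have h1 : u j ∈ Submodule.span ℚ (Set.range (u ∘ a)) := by
      rw [hspan]
      exact Submodule.subset_span ⟨j, rfl⟩
    exact (Submodule.mem_span_range_iff_exists_fun ℚ).1 h1
  choose P hP using hP
  have hne : Nonempty κ := by
    by_contra hcon
    rw [not_nonempty_iff] at hcon
    apply hu0
    funext j
    rw [← hP j]
    simp
  set m := Fintype.card κ with hm
  let e : Fin m ≃ κ := (Fintype.equivFin κ).symm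
  set c : Fin m → PadicAlgCl p := fun k => u (a (e k)) with hc
  have hcK : ∀ k, c k ∈ K := fun k => hu _
  have hcli : LinearIndependent ℚ c := hli.comp e e.injective
  obtain ⟨E, hE1, hE2, hE3⟩ := deg K V hyp hV hcK hcli
  have hmn : m ≤ n := by
    have := Fintype.card_le_of_injective a ha
    rwa [Fintype.card_fin] at this
  -- the rows
  have hrow : ∀ (i : ι) (k : Fin m), ∑ j, M i j * (P j (e k) : PadicAlgCl p) ∈ E := by
    intro i
    refine hE3 (fun k => ∑ j, M i j * (P j (e k) : PadicAlgCl p)) ?_ ?_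
    · intro k
      refine V.sum_mem fun j _ => ?_
      rw [mul_comm, ← Rat.smul_def]
      exact V.smul_mem _ (hM i j)
    · rw [← hker i]
      simp only [Finset.mul_sum]
      rw [Finset.sum_comm]
      refine Finset.sum_congr rfl fun j _ => ?_
      have h1 : u j = ∑ k : Fin m, (P j (e k) : PadicAlgCl p) * c k := by
        rw [← hP j, ← Equiv.sum_comp e]
        refine Finset.sum_congr rfl fun k _ => ?_
        rw [Rat.smul_def]
      conv_rhs => rw [h1, Finset.mul_sum]
      refine Finset.sum_congr rfl fun k _ => ?_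
      ring
  obtain ⟨k0⟩ := hne
  refine ⟨fun j => P j k0, ?_, E, hE1, ?_, ?_⟩
  · intro h
    have h1 := congrFun h (a k0)
    have h2 : P (a k0) = fun k => if k = k0 then 1 else 0 := by
      have h3 := hP (a k0)
      have h4 : ∑ k, (P (a k0) k - if k = k0 then 1 else 0) • (u ∘ a) k = 0 := by
        simp only [sub_smul, Finset.sum_sub_distrib, ite_smul, one_smul, zero_smul,
          Finset.sum_ite_eq', Finset.mem_univ, if_true]
        rw [sub_eq_zero]
        exact h3
      have h5 := Fintype.linearIndependent_iff.1 hli _ h4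
      funext k
      exact sub_eq_zero.1 (h5 k)
    have h6 := congrFun h2 k0
    simp only [if_true] at h6
    have h7 : P (a k0) k0 = 0 := h1
    rw [h6] at h7
    exact one_ne_zero h7
  · refine hE2.trans (Nat.pow_le_pow_right (by norm_num) (Nat.pow_le_pow_left ?_ 2))
    exact Nat.mul_le_mul hmn (by omega)
  · intro i
    have h1 := hrow i (e.symm k0)
    rwa [Equiv.apply_symm_apply] at h1

theorem natDegree_le (K : IntermediateField ℚ_[p] (PadicAlgCl p))
    (E : IntermediateField K (PadicAlgCl p)) [FiniteDimensional K E] {z : PadicAlgCl p}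
    (hz : z ∈ E) : (minpoly K z).natDegree ≤ finrank K E := by
  have h1 : minpoly K (⟨z, hz⟩ : E) = minpoly K z :=
    (minpoly.algebraMap_eq (A := K) (B := E) (B' := PadicAlgCl p)
      (algebraMap E (PadicAlgCl p)).injective ⟨z, hz⟩).symm
  rw [← h1]
  exact minpoly.natDegree_le _

/-- all rows but one over `K`, the last row of large degree -/
theorem last_row (K : IntermediateField ℚ_[p] (PadicAlgCl p)) (V : Submodule ℚ (PadicAlgCl p))
    (hyp : Hyp V) (hV : ∀ σ : PadicAlgCl p ≃ₐ[K] PadicAlgCl p, ∀ v ∈ V, σ v ∈ V)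
    {n : ℕ} (M : Matrix (Fin n) (Fin n) (PadicAlgCl p)) (hM : ∀ i j, M i j ∈ V) (i₀ : Fin n)
    (hK : ∀ i, i ≠ i₀ → ∀ j, M i j ∈ K)
    (hrows : LinearIndependent (PadicAlgCl p) (fun i : {i // i ≠ i₀} => M i))
    (hdeg : ∀ v : Fin n → ℚ, v ≠ 0 → 3 ^ ((n * (n - 1)) ^ 2) <
      (minpoly K (∑ j, M i₀ j * (v j : PadicAlgCl p))).natDegree) : M.det ≠ 0 := by
  classical
  intro hdet
  obtain ⟨w, hw0, hw⟩ := Matrix.exists_vecMul_eq_zero_iff.2 hdet
  -- a kernel vector of the other rows over `K`
  let N : Matrix (Fin n) (Fin n) K := fun i j => if h : i ≠ i₀ then ⟨M i j, hK i h j⟩ else 0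
  have hN : N.det = 0 := by
    refine Matrix.det_eq_zero_of_row_eq_zero i₀ fun j => ?_
    simp [N]
  obtain ⟨x, hx0, hx⟩ := Matrix.exists_mulVec_eq_zero_iff.2 hN
  set u : Fin n → PadicAlgCl p := fun j => (x j : PadicAlgCl p) with hu
  have huK : ∀ j, u j ∈ K := fun j => (x j).2
  have hu0 : u ≠ 0 := by
    intro h
    apply hx0
    funext j
    exact Subtype.ext (congrFun h j)
  have hother : ∀ i, i ≠ i₀ → ∑ j, M i j * u j = 0 := by
    intro i hi
    have h1 := congrFun hx i
    have h2 := congrArg (fun z : K => (z : PadicAlgCl p)) h1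
    simp only [Matrix.mulVec, dotProduct, Pi.zero_apply] at h2
    push_cast at h2
    rw [← h2]
    refine Finset.sum_congr rfl fun j _ => ?_
    simp [N, hi, u]
  have hlast : ∑ j, M i₀ j * u j = 0 := by
    -- `w M u = 0`
    have h1 : ∑ i, w i * ∑ j, M i j * u j = 0 := by
      simp only [Finset.mul_sum]
      rw [Finset.sum_comm]
      refine Finset.sum_eq_zero fun j _ => ?_
      have h2 := congrFun hw j
      simp only [Matrix.vecMul, dotProduct, Pi.zero_apply] at h2
      have h3 : ∑ i, w i * (M i j * u j) = (∑ i, w i * M i j) * u j := by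
        rw [Finset.sum_mul]
        exact Finset.sum_congr rfl fun i _ => by ring
      rw [h3, h2, zero_mul]
    rw [Finset.sum_eq_single i₀ (fun i _ hi => by rw [hother i hi, mul_zero])
      (fun h => absurd (Finset.mem_univ _) h)] at h1
    refine (mul_eq_zero.1 h1).resolve_left ?_
    intro hwi
    apply hw0
    have h2 : ∑ i : {i // i ≠ i₀}, w i • M i = 0 := by
      funext j
      have h3 := congrFun hw j
      simp only [Matrix.vecMul, dotProduct, Pi.zero_apply] at h3
      rw [Finset.sum_apply, Pi.zero_apply, ← h3]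
      have h4 : ∑ i, w i * M i j = ∑ i ∈ Finset.univ.filter (fun i => i ≠ i₀), w i * M i j := by
        rw [Finset.sum_filter]
        refine Finset.sum_congr rfl fun i _ => ?_
        by_cases hi : i = i₀
        · rw [if_neg (not_not.2 hi), hi, hwi, zero_mul]
        · rw [if_pos hi]
      rw [h4]
      exact (Finset.sum_subtype (p := fun i => i ≠ i₀) (Finset.univ.filter (fun i => i ≠ i₀))
        (fun i => by simp) (fun i => w i * M i j)).symm
    have h3 := Fintype.linearIndependent_iff.1 hrows (fun i => w i) h2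
    funext i
    by_cases hi : i = i₀
    · rw [hi, hwi]; rfl
    · exact h3 ⟨i, hi⟩
  have hker : ∀ i : Unit, ∑ j, M i₀ j * u j = 0 := fun _ => hlast
  obtain ⟨v, hv0, E, hE1, hE2, hE3⟩ := small_column K V hyp hV (fun _ : Unit => M i₀)
    (fun _ j => hM i₀ j) huK hu0 hker
  have h1 := hdeg v hv0
  have h2 := natDegree_le K E (hE3 ())
  omega

end Pool.Agent.E8helper92.PQ
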