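import Pool.Agent.E8helper92.PQ.Col

/-!
# A row of large degree
-/

set_option autoImplicit false

namespace Pool.Agent.E8helper92.PQ

open Pool.Agent.W245.PB (IsIwasawaLog)
open Pool.Agent.W254.PA (Hyp)
open Module

variable {p : ℕ} [hp : Fact p.Prime]

/-- all rows but one over `K`, the last row of large degree; integral version -/
theorem last_row_int (K : IntermediateField ℚ_[p] (PadicAlgCl p)) (V : Submodule ℚ (PadicAlgCl p))
    (hyp : Hyp V) (hV : ∀ σ : PadicAlgCl p ≃ₐ[K] PadicAlgCl p, ∀ v ∈ V, σ v ∈ V)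
    {n : ℕ} (M : Matrix (Fin n) (Fin n) (PadicAlgCl p)) (hM : ∀ i j, M i j ∈ V) (i₀ : Fin n)
    (hK : ∀ i, i ≠ i₀ → ∀ j, M i j ∈ K)
    (hrows : LinearIndependent (PadicAlgCl p) (fun i : {i // i ≠ i₀} => M i))
    (hdeg : ∀ v : Fin n → ℤ, v ≠ 0 → 3 ^ ((n * (n - 1)) ^ 2) <
      (minpoly K (∑ j, (v j : PadicAlgCl p) * M i₀ j)).natDegree) : M.det ≠ 0 := by
  classical
  have hsm := fun (u : Fin n → PadicAlgCl p) (hu : ∀ j, u j ∈ K) (hu0 : u ≠ 0)
    (hker : ∀ _ : Unit, ∑ j, M i₀ j * u j = 0) =>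
      small_column K V hyp hV (fun _ : Unit => M i₀) (fun _ j => hM i₀ j) hu hu0 hker
  intro hdet
  obtain ⟨w, hw0, hw⟩ := Matrix.exists_vecMul_eq_zero_iff.2 hdet
  let N : Matrix (Fin n) (Fin n) K := fun i j => if h : i ≠ i₀ then ⟨M i j, hK i h j⟩ else 0
  have hN : N.det = 0 := by
    refine Matrix.det_eq_zero_of_row_eq_zero i₀ fun j => ?_
    simp [N]
  obtain ⟨x, hx0, hx⟩ := Matrix.exists_mulVec_eq_zero_iff.2 hN
  set u : Fin n → PadicAlgCl p := fun j => (x j : PadicAlgCl p) with hu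
  have huK : ∀ j, u j ∈ K := fun j => (x j).2
  have hu0 : u ≠ 0 := by
    intro h
    apply hx0
    funext j
    exact Subtype.ext (congrFun h j)
  have hother : ∀ i, i ≠ i₀ → ∑ j, M i j * u j = 0 := by
    intro i hi
    have h1 := congrFun hx i
    have h2 := congrArg (fun z : K => (z : PadicAlgCl p)) h1
    simp only [Matrix.mulVec, dotProduct, Pi.zero_apply] at h2
    push_cast at h2
    rw [← h2]
    refine Finset.sum_congr rfl fun j _ => ?_
    simp [N, hi, u]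
  have hlast : ∑ j, M i₀ j * u j = 0 := by
    have h1 : ∑ i, w i * ∑ j, M i j * u j = 0 := by
      simp only [Finset.mul_sum]
      rw [Finset.sum_comm]
      refine Finset.sum_eq_zero fun j _ => ?_
      have h2 := congrFun hw j
      simp only [Matrix.vecMul, dotProduct, Pi.zero_apply] at h2
      have h3 : ∑ i, w i * (M i j * u j) = (∑ i, w i * M i j) * u j := by
        rw [Finset.sum_mul]
        exact Finset.sum_congr rfl fun i _ => by ring
      rw [h3, h2, zero_mul]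
    rw [Finset.sum_eq_single i₀ (fun i _ hi => by rw [hother i hi, mul_zero])
      (fun h => absurd (Finset.mem_univ _) h)] at h1
    refine (mul_eq_zero.1 h1).resolve_left ?_
    intro hwi
    apply hw0
    have h2 : ∑ i : {i // i ≠ i₀}, w i • M i = 0 := by
      funext j
      have h3 := congrFun hw j
      simp only [Matrix.vecMul, dotProduct, Pi.zero_apply] at h3
      rw [Finset.sum_apply, Pi.zero_apply, ← h3]
      have h4 : ∑ i, w i * M i j = ∑ i ∈ Finset.univ.filter (fun i => i ≠ i₀), w i * M i j := by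
        rw [Finset.sum_filter]
        refine Finset.sum_congr rfl fun i _ => ?_
        by_cases hi : i = i₀
        · rw [if_neg (not_not.2 hi), hi, hwi, zero_mul]
        · rw [if_pos hi]
      rw [h4]
      exact (Finset.sum_subtype (p := fun i => i ≠ i₀) (Finset.univ.filter (fun i => i ≠ i₀))
        (fun i => by simp) (fun i => w i * M i j)).symm
    have h3 := Fintype.linearIndependent_iff.1 hrows (fun i => w i) h2
    funext i
    by_cases hi : i = i₀
    · rw [hi, hwi]; rfl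
    · exact h3 ⟨i, hi⟩
  obtain ⟨v, hv0, E, hE1, hE2, hE3⟩ := hsm u huK hu0 (fun _ => hlast)
  obtain ⟨b, hb⟩ := IsLocalization.exist_integer_multiples_of_finite (nonZeroDivisors ℤ) v
  choose z hz using hb
  have hb0 : (b : ℤ) ≠ 0 := nonZeroDivisors.ne_zero b.2
  have hz' : ∀ j, ((z j : ℤ) : ℚ) = (b : ℤ) * v j := by
    intro j
    have h1 : ((z j : ℤ) : ℚ) = (b : ℤ) • v j := hz j
    rw [h1, zsmul_eq_mul]
  have hz0 : z ≠ 0 := by
    intro h
    apply hv0
    funext j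
    have h1 := hz' j
    rw [h] at h1
    simp only [Pi.zero_apply, Int.cast_zero] at h1
    exact (mul_eq_zero.1 h1.symm).resolve_left (Int.cast_ne_zero.2 hb0)
  have h1 := hdeg z hz0
  have hmem : ∑ j, (z j : PadicAlgCl p) * M i₀ j ∈ E := by
    have e1 : ∑ j, (z j : PadicAlgCl p) * M i₀ j =
        ((b : ℤ) : PadicAlgCl p) * ∑ j, M i₀ j * (v j : PadicAlgCl p) := by
      rw [Finset.mul_sum]
      refine Finset.sum_congr rfl fun j _ => ?_
      have h2 := congrArg (fun q : ℚ => (q : PadicAlgCl p)) (hz' j)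
      simp only [Rat.cast_intCast, Rat.cast_mul] at h2
      rw [h2]
      ring
    rw [e1]
    exact mul_mem (intCast_mem E _) (hE3 ())
  have h2 := natDegree_le K E hmem
  omega

theorem near_mul {x y : PadicAlgCl p} (hx : ‖x - 1‖ * (p : ℝ) ^ 3 ≤ 1)
    (hy : ‖y - 1‖ * (p : ℝ) ^ 3 ≤ 1) : ‖x * y - 1‖ * (p : ℝ) ^ 3 ≤ 1 := by
  have hp3 : (1 : ℝ) < (p : ℝ) ^ 3 :=
    one_lt_pow₀ (by exact_mod_cast hp.out.one_lt) (by norm_num)
  have hx1 : ‖x‖ ≤ 1 := by
    have h1 : x = (x - 1) + 1 := by ring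
    rw [h1]
    refine (IsUltrametricDist.norm_add_le_max _ _).trans (max_le ?_ ?_)
    · by_contra hcon
      push Not at hcon
      nlinarith [norm_nonneg (x - 1)]
    · rw [norm_one]
  have e : x * y - 1 = x * (y - 1) + (x - 1) := by ring
  have h2 : ‖x * y - 1‖ ≤ max ‖y - 1‖ ‖x - 1‖ := by
    rw [e]
    refine (IsUltrametricDist.norm_add_le_max _ _).trans (max_le_max ?_ le_rfl)
    rw [norm_mul]
    calc ‖x‖ * ‖y - 1‖ ≤ 1 * ‖y - 1‖ := mul_le_mul_of_nonneg_right hx1 (norm_nonneg _)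
      _ = ‖y - 1‖ := one_mul _
  rcases max_cases ‖y - 1‖ ‖x - 1‖ with ⟨h3, -⟩ | ⟨h3, -⟩
  · rw [h3] at h2
    exact (mul_le_mul_of_nonneg_right h2 (by positivity)).trans hy
  · rw [h3] at h2
    exact (mul_le_mul_of_nonneg_right h2 (by positivity)).trans hx

theorem near_inv {x : PadicAlgCl p} (hx : ‖x - 1‖ * (p : ℝ) ^ 3 ≤ 1) :
    ‖x⁻¹ - 1‖ * (p : ℝ) ^ 3 ≤ 1 := by
  have hp3 : (1 : ℝ) < (p : ℝ) ^ 3 :=
    one_lt_pow₀ (by exact_mod_cast hp.out.one_lt) (by norm_num)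
  have hlt : ‖x - 1‖ < 1 := by
    by_contra hcon
    push Not at hcon
    nlinarith [norm_nonneg (x - 1)]
  have hx1 : 1 ≤ ‖x‖ := by
    have h1 : (1 : PadicAlgCl p) = x - (x - 1) := by ring
    have h2 : ‖(1 : PadicAlgCl p)‖ ≤ max ‖x‖ ‖x - 1‖ := by
      conv_lhs => rw [h1]
      rw [sub_eq_add_neg]
      refine (IsUltrametricDist.norm_add_le_max _ _).trans (max_le_max le_rfl ?_)
      rw [norm_neg]
    rw [norm_one] at h2
    rcases max_cases ‖x‖ ‖x - 1‖ with ⟨h3, -⟩ | ⟨h3, -⟩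
    · rwa [h3] at h2
    · rw [h3] at h2
      exact absurd h2 (not_le.2 hlt)
  have hx0 : x ≠ 0 := by
    rintro rfl
    rw [norm_zero] at hx1
    linarith
  have e : x⁻¹ - 1 = -(x - 1) / x := by
    field_simp
    ring
  rw [e, norm_div, norm_neg]
  refine le_trans (mul_le_mul_of_nonneg_right ?_ (by positivity)) hx
  exact div_le_self (norm_nonneg _) hx1

theorem near_zpow {x : PadicAlgCl p} (hx : ‖x - 1‖ * (p : ℝ) ^ 3 ≤ 1) (k : ℤ) :
    ‖x ^ k - 1‖ * (p : ℝ) ^ 3 ≤ 1 := by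
  have hpow : ∀ {y : PadicAlgCl p}, ‖y - 1‖ * (p : ℝ) ^ 3 ≤ 1 → ∀ k : ℕ,
      ‖y ^ k - 1‖ * (p : ℝ) ^ 3 ≤ 1 := by
    intro y hy k
    induction k with
    | zero => simp
    | succ k ih =>
      rw [pow_succ]
      exact near_mul ih hy
  rcases Int.eq_nat_or_neg k with ⟨n, h | h⟩
  · rw [h, zpow_natCast]
    exact hpow hx n
  · rw [h, zpow_neg, zpow_natCast]
    exact near_inv (hpow hx n)

theorem near_prod {ι : Type*} (s : Finset ι) (f : ι → PadicAlgCl p)
    (hf : ∀ i ∈ s, ‖f i - 1‖ * (p : ℝ) ^ 3 ≤ 1) : ‖∏ i ∈ s, f i - 1‖ * (p : ℝ) ^ 3 ≤ 1 := by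
  classical
  induction s using Finset.induction_on with
  | empty => simp
  | insert a s ha ih =>
    rw [Finset.prod_insert ha]
    exact near_mul (hf a (Finset.mem_insert_self _ _))
      (ih fun i hi => hf i (Finset.mem_insert_of_mem hi))

/-- explicit form -/
theorem last_row_log {L : PadicAlgCl p → PadicAlgCl p} (hL : IsIwasawaLog p L)
    (K : IntermediateField ℚ_[p] (PadicAlgCl p)) {n : ℕ}
    (A : Matrix (Fin n) (Fin n) (PadicAlgCl p)) (hA : ∀ i j, A i j ≠ 0 ∧ IsAlgebraic ℚ (A i j))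
    (i₀ : Fin n) (hK : ∀ i, i ≠ i₀ → ∀ j, A i j ∈ K)
    (hrows : LinearIndependent (PadicAlgCl p) (fun i : {i // i ≠ i₀} => fun j => L (A i j)))
    (hnear : ∀ j, ‖A i₀ j - 1‖ * (p : ℝ) ^ 3 ≤ 1)
    (hdeg : ∀ v : Fin n → ℤ, v ≠ 0 → 3 ^ ((n * (n - 1)) ^ 2) <
      (minpoly K (∏ j, A i₀ j ^ v j)).natDegree) : (A.map L).det ≠ 0 := by
  refine last_row_int K (LogsQ hL) (hypQ hL) (fun σ v hv => logsQ_galois hL K σ hv) (A.map L)
    (fun i j => ⟨A i j, (hA i j).1, (hA i j).2, rfl⟩) i₀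
    (fun i hi j => PG.log_mem_K hL K (hA i j).1 (hK i hi j)) hrows ?_
  intro v hv
  have h1 : ∑ j, (v j : PadicAlgCl p) * (A.map L) i₀ j = L (∏ j, A i₀ j ^ v j) := by
    rw [hL.prod _ _ (fun j _ => zpow_ne_zero _ (hA i₀ j).1)]
    refine Finset.sum_congr rfl fun j _ => ?_
    rw [hL.zpow (hA i₀ j).1]
    rfl
  rw [h1]
  refine lt_of_lt_of_le (hdeg v hv) (natDegree_log hL K ?_ ?_)
  · exact Finset.prod_ne_zero_iff.2 fun j _ => zpow_ne_zero _ (hA i₀ j).1
  · exact near_prod _ _ fun j _ => near_zpow (hnear j) _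

end Pool.Agent.E8helper92.PQ
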